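import Pool.Agent.PFV.Main

/-! # Parafree one-relator groups with free-like verbal quotients: finitely many varieties do not suffice -/

namespace Pool.Agent.Results.MP_e09794_al.FiniteFamilies

/-- The free group of rank two. -/
abbrev F : Type := FreeGroup (Fin 2)

/-- The verbal subgroup `V(H)`: it is generated by all values in `H` of the words in `V`. -/
def verbal (V : Set (FreeGroup ℕ)) (H : Type) [Group H] : Subgroup H :=
  Subgroup.closure {h | ∃ w ∈ V, ∃ φ : FreeGroup ℕ →* H, φ w = h}

instance (V : Set (FreeGroup ℕ)) (H : Type) [Group H] : (verbal V H).Normal :=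
  Pool.Agent.PFV.verbal_normal V H

/-- The variety defined by `V` is not the variety of all groups. -/
def IsProper (V : Set (FreeGroup ℕ)) : Prop := ∃ w ∈ V, w ≠ 1

/-- `G / V(G)` is isomorphic to `F / V(F)`. -/
def SameQuotient (V : Set (FreeGroup ℕ)) (G : Type) [Group G] : Prop :=
  Nonempty (G ⧸ verbal V G ≃* F ⧸ verbal V F)

/-- The term `γ_{n+1}(H)` of the lower central series. -/
def gamma (H : Type) [Group H] (n : ℕ) : Subgroup H := (⊤ : Subgroup H).lowerCentralSeries n

instance (H : Type) [Group H] (n : ℕ) : (gamma H n).Normal :=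
  inferInstanceAs ((⊤ : Subgroup H).lowerCentralSeries n).Normal

/-- `G` is parafree: residually nilpotent, with the lower central quotients of a free group. -/
def IsParafree (G : Type) [Group G] : Prop :=
  ⨅ n, gamma G n = ⊥ ∧ ∃ X : Type, ∀ n, Nonempty (G ⧸ gamma G n ≃* FreeGroup X ⧸ gamma (FreeGroup X) n)

/-- `V` defines a variety of nilpotent-by-`W` groups: for some `c` the `(c+1)`-st term of the lower
central series of the verbal subgroup `W(F_∞)` lies in `V(F_∞)`. -/
def NilpotentBy (W V : Set (FreeGroup ℕ)) : Prop :=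
  ∃ c, (verbal W (FreeGroup ℕ)).lowerCentralSeries c ≤ verbal V (FreeGroup ℕ)

/-- `V` defines a variety of groups of some finite exponent prime to `k`. -/
def ExponentPrimeTo (k : ℕ) (V : Set (FreeGroup ℕ)) : Prop :=
  ∃ e : ℕ, Nat.Coprime e k ∧ FreeGroup.of 0 ^ e ∈ verbal V (FreeGroup ℕ)

/-- The set of laws of a group. -/
def laws (Q : Type) [Group Q] : Set (FreeGroup ℕ) := {w | ∀ φ : FreeGroup ℕ →* Q, φ w = 1}

/-- Let `𝒰` be a finite set of proper varieties and `k ≥ 2`. There are infinitely many pairwise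
non-isomorphic parafree one-relator groups `G` (with generators `x, y, z` and a relation
`z ^ k = x * v(x, y)`) that are not free but satisfy `G / V(G) ≅ F / V(F)` for every variety `V` of
nilpotent-by-`W` groups, `W ∈ 𝒰`, and for every variety `V` of an exponent prime to `k`. For each of
them some finite group `Q` generates a variety `V` with `G / V(G)` not isomorphic to `F / V(F)`. -/
theorem result (𝒰 : Finset (Set (FreeGroup ℕ))) (h𝒰 : ∀ W ∈ 𝒰, IsProper W) (k : ℕ) (hk : 2 ≤ k) :
    ∃ r : ℕ → FreeGroup (Fin 3),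
      (∀ n, ∃ v : F, r n = FreeGroup.of 2 ^ k * (FreeGroup.of 0 * FreeGroup.map Fin.castSucc v)⁻¹) ∧
      (∀ n, IsParafree (PresentedGroup {r n})) ∧
      (∀ n, ∀ X : Type, IsEmpty (PresentedGroup {r n} ≃* FreeGroup X)) ∧
      (∀ n, ∀ V : Set (FreeGroup ℕ), ((∃ W ∈ 𝒰, NilpotentBy W V) ∨ ExponentPrimeTo k V) →
        SameQuotient V (PresentedGroup {r n})) ∧
      (∀ n, ∃ (Q : Type) (_ : Group Q) (_ : Finite Q), ¬ SameQuotient (laws Q) (PresentedGroup {r n})) ∧
      (∀ m n, m ≠ n → IsEmpty (PresentedGroup {r m} ≃* PresentedGroup {r n})) := by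
  obtain ⟨v, hv, hne⟩ := Pool.Agent.PFV.main 𝒰 h𝒰 k hk
  refine ⟨fun n => Pool.Agent.PFV.rr (v n) k, fun n => ⟨v n, rfl⟩, fun n => ⟨(hv n).1, Fin 2, (hv n).2.1⟩,
    fun n => (hv n).2.2.1, fun n => (hv n).2.2.2.1, fun n => (hv n).2.2.2.2, hne⟩

end Pool.Agent.Results.MP_e09794_al.FiniteFamilies
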