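import Pool.Agent.PFM.Main

/-! # Parafree one-relator groups: the marked case, with soluble varieties only -/

namespace Pool.Agent.Results.MP_e09794_al.MarkedSoluble

/-- The intersection of the derived series of `G`; it is trivial exactly when `G` is residually
soluble. -/
def solubleResidual (G : Type) [Group G] : Subgroup G := ⨅ n, derivedSeries G n

instance (G : Type) [Group G] : (solubleResidual G).Normal := Pool.Agent.PFM.residual_normal G

/-- The generator `a_i` of the one-relator group `⟨a_i (i ∈ ι), c ; r⟩`; the generators are indexed by
`Option ι`, and `none` stands for `c`. -/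
def a {ι : Type} (r : FreeGroup (Option ι)) (i : ι) : PresentedGroup {r} := PresentedGroup.of (some i)

/-- Let `G = ⟨a_i (i ∈ ι), c ; r⟩` be a one-relator group. If for every `n` the elements `a_i` generate
`G` modulo the `n`-th term of its derived series, then the images of the `a_i` are a free basis of
the largest residually soluble quotient of `G`; in particular `G` is free on the `a_i` if it is
residually soluble. -/
theorem result {ι : Type} (r : FreeGroup (Option ι))
    (hgen : ∀ n, Subgroup.closure (Set.range (a r)) ⊔ derivedSeries (PresentedGroup {r}) n = ⊤) :
    Function.Bijective (FreeGroup.lift (fun i : ι =>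
      (a r i : PresentedGroup {r} ⧸ solubleResidual (PresentedGroup {r})))) ∧
    (solubleResidual (PresentedGroup {r}) = ⊥ → Function.Bijective (FreeGroup.lift (a r))) :=
  ⟨Pool.Agent.PFM.main r hgen, Pool.Agent.PFM.main' r hgen⟩

end Pool.Agent.Results.MP_e09794_al.MarkedSoluble
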